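import Pool.Agent.E8helper30.MC.Stm

/-!
# Project MC (helper30), MP_d8224a_co: choice of the parameters
-/

set_option autoImplicit false

namespace Pool.Agent.E8helper7.MC

open Pool.Agent.E8helper30.MC Filter Topology

theorem t_NUM : S_NUM := by
  have h1 : ∀ᶠ x : ℝ in atTop, ‖(Real.log x) ^ 2‖ ≤ (1 / 8576 : ℝ) * ‖x‖ :=
    (Real.isLittleO_pow_log_id_atTop (n := 2)).def (by norm_num)
  obtain ⟨X, hX⟩ := eventually_atTop.1 h1
  obtain ⟨N0, hN0⟩ := exists_nat_ge (max X 1 ^ 2)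
  refine ⟨8576, max N0 16, by norm_num, fun n hn => ?_⟩
  have hn0 : N0 ≤ n := (le_max_left _ _).trans hn
  have hn16 : 16 ≤ n := (le_max_right _ _).trans hn
  have hnR : (16 : ℝ) ≤ n := by exact_mod_cast hn16
  set lam := Nat.log 2 (2 * n + 1) + 1 with hlam
  set s := Nat.sqrt n with hs
  have hlt : 2 * n + 1 < 2 ^ lam := Nat.lt_pow_succ_log_self (by norm_num) _
  have hle : 2 ^ (lam - 1) ≤ 2 * n + 1 := by
    rw [hlam, Nat.add_sub_cancel]
    exact Nat.pow_log_le_self 2 (by omega)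
  have hlam5 : 5 ≤ lam := by
    by_contra hc
    have h4 : lam ≤ 4 := by omega
    have : 2 ^ lam ≤ 2 ^ 4 := Nat.pow_le_pow_right (by norm_num) h4
    omega
  have hs1 : n < (s + 1) ^ 2 := by
    have := Nat.lt_succ_sqrt n
    rw [pow_two]
    exact this
  have hs2 : s ^ 2 ≤ n := by
    have := Nat.sqrt_le n
    rw [pow_two]
    exact this
  -- real bounds
  have hlog2 : (1 / 2 : ℝ) < Real.log 2 := by
    have := Real.log_two_gt_d9
    linarith
  have hL0 : 2 ≤ Real.log n := by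
    have h3 : Real.log 16 ≤ Real.log n := Real.log_le_log (by norm_num) hnR
    have h4 : Real.log 16 = 4 * Real.log 2 := by
      rw [show (16 : ℝ) = 2 ^ 4 by norm_num, Real.log_pow]
      norm_num
    linarith
  have hlamR : (lam : ℝ) ≤ 4 * Real.log n := by
    have h5 : (2 : ℝ) ^ (lam - 1) ≤ 4 * n := by
      have : ((2 ^ (lam - 1) : ℕ) : ℝ) ≤ ((2 * n + 1 : ℕ) : ℝ) := by exact_mod_cast hle
      push_cast at this
      linarith
    have h6 : ((lam - 1 : ℕ) : ℝ) * Real.log 2 ≤ 2 * Real.log 2 + Real.log n := by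
      have h7 := Real.log_le_log (by positivity) h5
      rw [Real.log_pow, Real.log_mul (by norm_num) (by linarith),
        show (4 : ℝ) = 2 ^ 2 by norm_num, Real.log_pow] at h7
      push_cast at h7 ⊢
      exact h7
    have h8 : ((lam - 1 : ℕ) : ℝ) = (lam : ℝ) - 1 := by
      rw [Nat.cast_sub (by omega)]
      norm_num
    rw [h8] at h6
    have h9 : ((lam : ℝ) - 3) * Real.log 2 ≤ Real.log n := by linarith
    have h10 : ((lam : ℝ) - 3) * (1 / 2) ≤ ((lam : ℝ) - 3) * Real.log 2 := by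
      have : (5 : ℝ) ≤ lam := by exact_mod_cast hlam5
      exact mul_le_mul_of_nonneg_left hlog2.le (by linarith)
    linarith
  have hsq0 : (4 : ℝ) ≤ √n := by
    rw [show (4 : ℝ) = √16 by rw [show (16 : ℝ) = 4 ^ 2 by norm_num]; exact (Real.sqrt_sq (by norm_num)).symm]
    exact Real.sqrt_le_sqrt hnR
  have hsR : (s : ℝ) + 1 ≤ 2 * √n := by
    have h11 : (s : ℝ) ≤ √n := by
      apply Real.le_sqrt_of_sq_le
      exact_mod_cast hs2
    linarith
  have hlam0 : (0 : ℝ) ≤ lam := Nat.cast_nonneg _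
  have hl2 : (lam : ℝ) ^ 2 ≤ 16 * Real.log n ^ 2 := by
    have := pow_le_pow_left₀ hlam0 hlamR 2
    nlinarith
  have hprod : ((s : ℝ) + 1) * (lam : ℝ) ^ 2 ≤ 32 * √n * Real.log n ^ 2 := by
    calc ((s : ℝ) + 1) * (lam : ℝ) ^ 2 ≤ (2 * √n) * (16 * Real.log n ^ 2) :=
          mul_le_mul hsR hl2 (by positivity) (by positivity)
      _ = _ := by ring
  refine ⟨67 * (s + 1) * lam ^ 2, lam, hlam5, ?_, ?_, hlt.le, ?_, ?_⟩
  · have : 0 < lam := by omega
    exact Nat.succ_le_of_lt (by positivity)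
  · have hxX : X ≤ √n := by
      have h12 : max X 1 ^ 2 ≤ (n : ℝ) := hN0.trans (by exact_mod_cast hn0)
      have h13 : max X 1 ≤ √n := Real.le_sqrt_of_sq_le h12
      exact (le_max_left _ _).trans h13
    have h14 := hX (√n) hxX
    rw [Real.norm_of_nonneg (by positivity), Real.norm_of_nonneg (by positivity),
      Real.log_sqrt (by positivity)] at h14
    have h15 : Real.log n ^ 2 ≤ 4 / 8576 * √n := by nlinarith
    have h16 : (67 : ℝ) * ((s + 1) * (lam : ℝ) ^ 2) ≤ n := by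
      calc (67 : ℝ) * ((s + 1) * (lam : ℝ) ^ 2) ≤ 67 * (32 * √n * Real.log n ^ 2) := by
            gcongr
        _ ≤ 67 * (32 * √n * (4 / 8576 * √n)) := by gcongr
        _ = √n * √n := by ring
        _ = n := Real.mul_self_sqrt (by positivity)
    have h17 : ((67 * (s + 1) * lam ^ 2 : ℕ) : ℝ) ≤ (n : ℝ) := by
      push_cast
      linarith
    exact_mod_cast h17
  · have hl : 0 < lam := by omega
    have h18 : (67 * (s + 1) * lam ^ 2) ^ 2 = 4489 * (s + 1) ^ 2 * lam ^ 4 := by ring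
    rw [h18]
    have h19 : 4400 * n < 4489 * (s + 1) ^ 2 := by omega
    exact Nat.mul_lt_mul_of_pos_right h19 (by positivity)
  · push_cast
    calc (4 : ℝ) * (67 * ((s : ℝ) + 1) * (lam : ℝ) ^ 2)
        = 268 * (((s : ℝ) + 1) * (lam : ℝ) ^ 2) := by ring
      _ ≤ 268 * (32 * √n * Real.log n ^ 2) := by gcongr
      _ = 8576 * √n * Real.log n ^ 2 := by ring

end Pool.Agent.E8helper7.MC
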